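import Mathlib
import Pool.Agent.V117.WPRd

/-!
# Weak phase retrieval by `2n-2` subspaces fails for `n = 4` and lines

No six vectors of `ℝ⁴` do weak phase retrieval.  Hence it is not true that for all `n ≥ 2` and all
`d_1, …, d_{2n-2} ∈ {1, …, n-1}` there are subspaces of these dimensions doing weak phase
retrieval.
-/

namespace Pool.Agent.Results.MP_eac85a_an.NoSixLines

open Finset

/-- `x` and `y` weakly have the same phase -/
def WeaklySamePhase {n : ℕ} (x y : EuclideanSpace ℝ (Fin n)) : Prop :=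
  ∃ θ : ℝ, (θ = 1 ∨ θ = -1) ∧
    ∀ i, x i ≠ 0 → y i ≠ 0 → Real.sign (x i) = θ * Real.sign (y i)

/-- the subspaces `W i` do weak phase retrieval -/
def DoesWeakPR {n m : ℕ} (W : Fin m → Submodule ℝ (EuclideanSpace ℝ (Fin n))) : Prop :=
  ∀ x y : EuclideanSpace ℝ (Fin n),
    (∀ i, ‖(W i).starProjection x‖ = ‖(W i).starProjection y‖) → WeaklySamePhase x y

/-- the vectors `φ i` do weak phase retrieval -/
def VectorsDoWeakPR {n m : ℕ} (φ : Fin m → EuclideanSpace ℝ (Fin n)) : Prop :=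
  ∀ x y : EuclideanSpace ℝ (Fin n),
    (∀ i, |inner ℝ x (φ i)| = |inner ℝ y (φ i)|) → WeaklySamePhase x y

/-- the statement of Q1 -/
def Q1 : Prop :=
  ∀ n : ℕ, 2 ≤ n → ∀ d : Fin (2 * n - 2) → ℕ, (∀ i, 1 ≤ d i ∧ d i ≤ n - 1) →
    ∃ W : Fin (2 * n - 2) → Submodule ℝ (EuclideanSpace ℝ (Fin n)),
      (∀ i, Module.finrank ℝ (W i) = d i) ∧ DoesWeakPR W

theorem inner_sum {n : ℕ} (x y : EuclideanSpace ℝ (Fin n)) :
    inner ℝ x y = ∑ i, y i * x i := by
  rw [PiLp.inner_apply]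
  refine Finset.sum_congr rfl fun i _ => ?_
  simp [mul_comm]

/-- opposite signs at `r`, equal signs at `s` -/
theorem sign_contra {n : ℕ} {x y : EuclideanSpace ℝ (Fin n)} (h : WeaklySamePhase x y)
    {r s : Fin n} (hr : x r * y r < 0) (hs : 0 < x s * y s) : False := by
  obtain ⟨θ, hθ, H⟩ := h
  have xr : x r ≠ 0 := by rintro h; rw [h, zero_mul] at hr; exact lt_irrefl _ hr
  have yr : y r ≠ 0 := by rintro h; rw [h, mul_zero] at hr; exact lt_irrefl _ hr
  have xs : x s ≠ 0 := by rintro h; rw [h, zero_mul] at hs; exact lt_irrefl _ hs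
  have ys : y s ≠ 0 := by rintro h; rw [h, mul_zero] at hs; exact lt_irrefl _ hs
  have e1 := H r xr yr
  have e2 := H s xs ys
  rcases mul_neg_iff.mp hr with ⟨h1, h2⟩ | ⟨h1, h2⟩
  · rw [Real.sign_of_pos h1, Real.sign_of_neg h2] at e1
    rcases mul_pos_iff.mp hs with ⟨h3, h4⟩ | ⟨h3, h4⟩
    · rw [Real.sign_of_pos h3, Real.sign_of_pos h4] at e2
      linarith
    · rw [Real.sign_of_neg h3, Real.sign_of_neg h4] at e2
      linarith
  · rw [Real.sign_of_neg h1, Real.sign_of_pos h2] at e1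
    rcases mul_pos_iff.mp hs with ⟨h3, h4⟩ | ⟨h3, h4⟩
    · rw [Real.sign_of_pos h3, Real.sign_of_pos h4] at e2
      linarith
    · rw [Real.sign_of_neg h3, Real.sign_of_neg h4] at e2
      linarith

theorem not_lt_of_weak {n m : ℕ} {φ : Fin m → EuclideanSpace ℝ (Fin n)} (h : VectorsDoWeakPR φ)
    (a b : Fin n → ℝ) (hab : ∀ k, (∑ r, φ k r * a r) * (∑ r, φ k r * b r) = 0) (r s : Fin n) :
    ¬ (a r * b s) ^ 2 < (a s * b r) ^ 2 := by
  intro hlt
  have has : a s ≠ 0 := by
    intro h0; rw [h0, zero_mul] at hlt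
    have := sq_nonneg (a r * b s); simp at hlt; linarith
  have hD : 0 < a r ^ 2 + a s ^ 2 := by positivity
  set T : ℝ := (b r ^ 2 + b s ^ 2) / (a r ^ 2 + a s ^ 2) with hT
  have hT0 : 0 ≤ T := by positivity
  have ht : Real.sqrt T ^ 2 = T := Real.sq_sqrt hT0
  set t := Real.sqrt T
  have hTD : T * (a r ^ 2 + a s ^ 2) = b r ^ 2 + b s ^ 2 := by
    rw [hT]; field_simp
  have hw := h (WithLp.toLp 2 fun i => t * a i + b i) (WithLp.toLp 2 fun i => t * a i - b i) (by
    intro k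
    rw [inner_sum, inner_sum]
    have e1 : ∑ i, φ k i * (t * a i + b i) = t * (∑ i, φ k i * a i) + ∑ i, φ k i * b i := by
      rw [Finset.mul_sum, ← Finset.sum_add_distrib]
      exact Finset.sum_congr rfl fun i _ => by ring
    have e2 : ∑ i, φ k i * (t * a i - b i) = t * (∑ i, φ k i * a i) - ∑ i, φ k i * b i := by
      rw [Finset.mul_sum, ← Finset.sum_sub_distrib]
      exact Finset.sum_congr rfl fun i _ => by ring
    change |∑ i, φ k i * (t * a i + b i)| = |∑ i, φ k i * (t * a i - b i)|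
    rw [e1, e2]
    rcases mul_eq_zero.mp (hab k) with h0 | h0
    · rw [h0, mul_zero, zero_add, zero_sub, abs_neg]
    · rw [h0, add_zero, sub_zero])
  refine sign_contra hw (r := r) (s := s) ?_ ?_
  · change (t * a r + b r) * (t * a r - b r) < 0
    have e : (t * a r + b r) * (t * a r - b r) = T * a r ^ 2 - b r ^ 2 := by
      rw [← ht]; ring
    rw [e]
    have : (T * a r ^ 2 - b r ^ 2) * (a r ^ 2 + a s ^ 2) < 0 := by
      have : (T * a r ^ 2 - b r ^ 2) * (a r ^ 2 + a s ^ 2) = (a r * b s) ^ 2 - (a s * b r) ^ 2 := by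
        linear_combination a r ^ 2 * hTD
      rw [this]; linarith
    by_contra hge
    push Not at hge
    exact absurd this (not_lt.mpr (mul_nonneg hge hD.le))
  · change 0 < (t * a s + b s) * (t * a s - b s)
    have e : (t * a s + b s) * (t * a s - b s) = T * a s ^ 2 - b s ^ 2 := by
      rw [← ht]; ring
    rw [e]
    have : 0 < (T * a s ^ 2 - b s ^ 2) * (a r ^ 2 + a s ^ 2) := by
      have : (T * a s ^ 2 - b s ^ 2) * (a r ^ 2 + a s ^ 2) = (a s * b r) ^ 2 - (a r * b s) ^ 2 := by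
        linear_combination a s ^ 2 * hTD
      rw [this]; linarith
    exact (pos_iff_pos_of_mul_pos this).mpr hD

theorem no_six (φ : Fin 6 → EuclideanSpace ℝ (Fin 4)) : ¬ VectorsDoWeakPR φ := by
  intro h
  refine Pool.Agent.V117.WPRd.no_vectors (fun k r => φ k r) ?_
  intro a b hab r s
  exact le_antisymm (not_lt.mp (not_lt_of_weak h a b hab s r))
    (not_lt.mp (not_lt_of_weak h a b hab r s))

theorem no_vectors (m : ℕ) (hm : m ≤ 6) (φ : Fin m → EuclideanSpace ℝ (Fin 4)) :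
    ¬ VectorsDoWeakPR φ := by
  intro h
  refine no_six (fun i => if hi : (i : ℕ) < m then φ ⟨i, hi⟩ else 0) ?_
  intro x y hxy
  refine h x y ?_
  intro i
  have := hxy ⟨i, lt_of_lt_of_le i.2 hm⟩
  simpa using this

theorem no_lines : ¬ ∃ W : Fin 6 → Submodule ℝ (EuclideanSpace ℝ (Fin 4)),
    (∀ i, Module.finrank ℝ (W i) = 1) ∧ DoesWeakPR W := by
  rintro ⟨W, hW, hPR⟩
  have hspan : ∀ i, ∃ v : EuclideanSpace ℝ (Fin 4), W i = Submodule.span ℝ {v} := by
    intro i
    obtain ⟨v, _, hv⟩ := finrank_eq_one_iff'.mp (hW i)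
    refine ⟨v, le_antisymm ?_ ?_⟩
    · intro x hx
      obtain ⟨c, hc⟩ := hv ⟨x, hx⟩
      rw [Submodule.mem_span_singleton]
      exact ⟨c, congrArg Subtype.val hc⟩
    · rw [Submodule.span_singleton_le_iff_mem]
      exact v.2
  choose φ hφ using hspan
  obtain rfl : W = fun i => Submodule.span ℝ {φ i} := funext hφ
  refine no_six φ ?_
  intro x y hxy
  refine hPR x y ?_
  intro i
  change ‖(Submodule.span ℝ {φ i}).starProjection x‖ = ‖(Submodule.span ℝ {φ i}).starProjection y‖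
  rw [Submodule.starProjection_singleton, Submodule.starProjection_singleton, norm_smul,
    norm_smul]
  congr 1
  rw [norm_div, norm_div]
  congr 1
  rw [real_inner_comm, real_inner_comm y]
  simpa [Real.norm_eq_abs] using hxy i

/-- **Main result.** No family of at most six vectors of `ℝ⁴` does weak phase retrieval, no six
lines of `ℝ⁴` do, and Q1 is false. -/
theorem result :
    (∀ m : ℕ, m ≤ 6 → ∀ φ : Fin m → EuclideanSpace ℝ (Fin 4), ¬ VectorsDoWeakPR φ) ∧
    (¬ ∃ W : Fin 6 → Submodule ℝ (EuclideanSpace ℝ (Fin 4)),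
      (∀ i, Module.finrank ℝ (W i) = 1) ∧ DoesWeakPR W) ∧
    ¬ Q1 := by
  refine ⟨no_vectors, no_lines, ?_⟩
  intro h
  exact no_lines (h 4 (by norm_num) (fun _ => 1) (fun _ => ⟨le_refl 1, by norm_num⟩))

end Pool.Agent.Results.MP_eac85a_an.NoSixLines
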